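import Pool.Agent.helper48.TH.Spec

set_option autoImplicit false

namespace TP.TW

open DP MeasureTheory Finset

theorem SHI_br (i j : ℤ) (v : V) : br (RSX_tr (2 * i) (2 * j) v) = RSX_tr (2 * i) (2 * j) (br v) := by
  have k1 : ∀ w : V, (w.1 + w.2) % 2 = 0 → br w = w := fun w h => if_pos h
  have k2 : ∀ w : V, ¬ (w.1 + w.2) % 2 = 0 → br w = (w.1 - 1, w.2) := fun w h => if_neg h
  by_cases h : (v.1 + v.2) % 2 = 0
  · have h' : ((RSX_tr (2 * i) (2 * j) v).1 + (RSX_tr (2 * i) (2 * j) v).2) % 2 = 0 := by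
      show (v.1 + 2 * i + (v.2 + 2 * j)) % 2 = 0
      omega
    rw [k1 _ h, k1 _ h']
  · have h' : ¬ ((RSX_tr (2 * i) (2 * j) v).1 + (RSX_tr (2 * i) (2 * j) v).2) % 2 = 0 := by
      show ¬ (v.1 + 2 * i + (v.2 + 2 * j)) % 2 = 0
      omega
    rw [k2 _ h, k2 _ h']
    show (v.1 + 2 * i - 1, v.2 + 2 * j) = (v.1 - 1 + 2 * i, v.2 + 2 * j)
    ext
    · dsimp only; omega
    · rfl

theorem SHI_til (i j : ℤ) (S : Finset V) (z : V) :
    RSX_tr (2 * i) (2 * j) z ∈ til (shf (2 * i, 2 * j) S) ↔ z ∈ til S := by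
  unfold til shf
  rw [Set.mem_ofPred_eq, Set.mem_ofPred_eq, SHI_br, Finset.mem_image]
  constructor
  · rintro ⟨y, hy, h⟩
    have h1 : RSX_tr (2 * i) (2 * j) y = RSX_tr (2 * i) (2 * j) (br z) := h
    rw [← (RSX_tr (2 * i) (2 * j)).injective h1]
    exact hy
  · intro h
    exact ⟨br z, h, rfl⟩

theorem SHI_crs (o k : Bool) (c : V → Bool) (S : Finset V) (a b d e i j : ℤ) :
    crs o (fun v => c (RSX_tr (2 * i) (2 * j) v)) k (til S) a b d e ↔
      crs o c k (til (shf (2 * i, 2 * j) S)) (a + 2 * i) (b + 2 * i) (d + 2 * j) (e + 2 * j) := by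
  have hij : (2 * i + 2 * j) % 2 = 0 := by omega
  constructor
  · rintro ⟨u, v, hu, h⟩
    refine ⟨RSX_tr (2 * i) (2 * j) u, RSX_tr (2 * i) (2 * j) v, ?_, ?_⟩
    · cases o
      · simp only [Bool.false_eq_true, if_false] at hu ⊢
        simp [RSX_tr, hu.1, hu.2]
      · simp only [if_true] at hu ⊢
        simp [RSX_tr, hu.1, hu.2]
    · refine RSX_con (W := {w | w ∈ rect (a + 2 * i) (b + 2 * i) (d + 2 * j) (e + 2 * j) ∩
        til (shf (2 * i, 2 * j) S) ∧ c w = k}) _ (RSX_adj_tr _ _ hij) (Con.mono ?_ h)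
      intro z hz
      have hz1 : z ∈ rect a b d e := hz.1.1
      refine ⟨⟨?_, (SHI_til i j S z).2 hz.1.2⟩, hz.2⟩
      simp only [rect, Set.mem_ofPred_eq, RSX_tr, Equiv.coe_fn_mk] at hz1 ⊢
      omega
  · rintro ⟨u, v, hu, h⟩
    refine ⟨(RSX_tr (2 * i) (2 * j)).symm u, (RSX_tr (2 * i) (2 * j)).symm v, ?_, ?_⟩
    · cases o
      · simp only [Bool.false_eq_true, if_false] at hu ⊢
        simp [RSX_tr, hu.1, hu.2]
      · simp only [if_true] at hu ⊢
        simp [RSX_tr, hu.1, hu.2]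
    · refine Con.mono ?_ (RSX_con' _ (RSX_adj_tr' _ _ hij) h)
      rintro z ⟨⟨hz1, hz3⟩, hz2⟩
      refine ⟨⟨?_, (SHI_til i j S z).1 hz3⟩, hz2⟩
      simp only [rect, Set.mem_ofPred_eq, RSX_tr, Equiv.coe_fn_mk] at hz1 ⊢
      omega

theorem SHI_col (β : V → Bool) (i j : ℤ) :
    (col fun v => β (v.1 + 2 * i, v.2 + 2 * j)) = fun v => col β (RSX_tr (2 * i) (2 * j) v) := by
  funext v
  have h := SHI_br i j v
  show β ((br v).1 + 2 * i, (br v).2 + 2 * j) = β (br (RSX_tr (2 * i) (2 * j) v))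
  rw [h]
  rfl

theorem SHI : SHI_stmt := by
  intro o k β S a b d e i j
  rw [SHI_col]
  exact SHI_crs o k (col β) S a b d e i j

end TP.TW
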